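import Pool.Agent.R828.ESep

/-!
# MP_a67be6_gt: `e`-separable products of discrete spaces need not be `E`-separable
-/

namespace Pool.Agent.Results.MP_a67be6_gt.SigmaProduct

open Set Pool.Agent.R828.ESep

open scoped Cardinal

universe u

/-- `ESeparable` (`e`-separability) and `SelESeparable` (`E`-separability) are defined in
`Pool/Agent/R828/ESep.lean`. -/
theorem result :
    -- explicit counterexamples: `ℕ^ℝ` and the cube `{0,1}^ℝ`
    (ESeparable (ℝ → ℕ) ∧ ¬ SelESeparable (ℝ → ℕ)) ∧
    (ESeparable (ℝ → Bool) ∧ ¬ SelESeparable (ℝ → Bool)) ∧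
    -- for every infinite cardinal `κ` all powers `D(κ)^I` with `κ < |I| ≤ 2^κ`
    (∀ (L I : Type u) [TopologicalSpace L] [DiscreteTopology L], Infinite L → #L < #I →
      #I ≤ 2 ^ #L → ESeparable (I → L) ∧ ¬ SelESeparable (I → L)) ∧
    -- all products with more than `κ` nontrivial factors, all but finitely many of which have
    -- at most `κ` points, fail to be `E`-separable
    (∀ (I : Type u) (A : I → Type u) [∀ i, TopologicalSpace (A i)] [∀ i, DiscreteTopology (A i)]
      [∀ i, Nontrivial (A i)] (κ : Cardinal.{u}), ℵ₀ ≤ κ → {i | κ < #(A i)}.Finite → κ < #I →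
      ¬ SelESeparable (∀ i, A i)) := by
  have h0 : ∀ (L I : Type u) [TopologicalSpace L] [DiscreteTopology L], Infinite L → #L < #I →
      #I ≤ 2 ^ #L → ESeparable (I → L) ∧ ¬ SelESeparable (I → L) := by
    intro L I _ _ hL h1 h2
    have : Infinite I := Cardinal.infinite_iff.2 ((Cardinal.infinite_iff.1 hL).trans h1.le)
    refine ⟨eSeparable_power h2, not_selESeparable (Cardinal.infinite_iff.1 hL) ?_ h1⟩
    simp
  refine ⟨⟨?_, ?_⟩, ⟨?_, ?_⟩, h0, ?_⟩
  · apply eSeparable_power
    rw [Cardinal.mk_real, Cardinal.mk_nat, Cardinal.two_power_aleph0]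
  · refine not_selESeparable (κ := ℵ₀) le_rfl ?_ ?_
    · simp
    · rw [Cardinal.mk_real]
      exact Cardinal.aleph0_lt_continuum
  · apply eSeparable_cube
    rw [Cardinal.mk_real, Cardinal.two_power_aleph0]
  · refine not_selESeparable (κ := ℵ₀) le_rfl ?_ ?_
    · have : {i : ℝ | ℵ₀ < #Bool} = ∅ := by
        ext i
        simp [not_lt.2 (Cardinal.lt_aleph0_of_finite Bool).le]
      rw [this]
      exact Set.finite_empty
    · rw [Cardinal.mk_real]
      exact Cardinal.aleph0_lt_continuum
  · intro I A _ _ _ κ h1 h2 h3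
    exact not_selESeparable h1 h2 h3

end Pool.Agent.Results.MP_a67be6_gt.SigmaProduct
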